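import Mathlib

set_option autoImplicit false

/-!
# The numerical inequalities
-/

namespace Pool.Agent.helper77.Hull

theorem num_k (c L t : ℝ) (hc : 0 < c) (m D N0 W n : ℕ) (hm1 : (1 : ℝ) ≤ m)
    (hcm : 4 ≤ c ^ 2 * m) (hmD : 2 * m ≤ D) (hDu : (D : ℝ) ≤ Real.exp (5 * L))
    (hL1 : (1024 : ℝ) ≤ Real.exp L) (hcL : 64 * L ≤ c ^ 2 * m)
    (ht' : t ≤ 100 * L) (hmN : 8 * ((m : ℝ) * N0) * Real.exp (2 * L) ≤ D) (hN0 : 0 < N0)
    (h2N0 : 2 * N0 ≤ D) (hW : (W : ℝ) ≤ 4 * Real.exp (-(8 * c ^ 2 * m)) * n) :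
    ∃ F : ℕ, (W ≠ 0 → (N0 : ℝ) * (F + 1) ≤ Real.exp (-(t + 2 * L)) * n ∧
      2 * (m : ℝ) * ((⌊Real.exp (-t) * n⌋₊ : ℕ) + W / (32 * c ^ 2)) < (F + 1) * D) ∧
      ((⌊Real.exp (-t) * n⌋₊ : ℕ) : ℝ) + W / (32 * c ^ 2) ≤ 2 * Real.exp (-t) * n := by
  have hLpos : 0 < L := by
    by_contra h
    rw [not_lt] at h
    have h1 := Real.exp_le_one_iff.2 h
    linarith
  have hc2 : 0 < c ^ 2 := by positivity
  have hn0 : (0 : ℝ) ≤ n := Nat.cast_nonneg _
  have hN0R : (0 : ℝ) < N0 := by exact_mod_cast hN0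
  have hmDR : 2 * (m : ℝ) ≤ D := by exact_mod_cast hmD
  have h2N0R : 2 * (N0 : ℝ) ≤ D := by exact_mod_cast h2N0
  have hDR : (0 : ℝ) < D := by linarith
  obtain ⟨X, hX⟩ : ∃ X : ℝ, X = Real.exp (-(8 * c ^ 2 * m)) := ⟨_, rfl⟩
  obtain ⟨y, hy⟩ : ∃ y : ℝ, y = Real.exp (-(t + 2 * L)) := ⟨_, rfl⟩
  obtain ⟨z, hz⟩ : ∃ z : ℝ, z = Real.exp (-t) := ⟨_, rfl⟩
  obtain ⟨q, hq⟩ : ∃ q : ℝ, q = Real.exp (2 * L) := ⟨_, rfl⟩
  obtain ⟨p, hp⟩ : ∃ p : ℝ, p = Real.exp (5 * L) := ⟨_, rfl⟩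
  have hzy : z = y * q := by
    rw [hz, hy, hq, ← Real.exp_add]
    congr 1
    ring
  have hX0 : 0 < X := by rw [hX]; exact Real.exp_pos _
  have hy0 : 0 < y := by rw [hy]; exact Real.exp_pos _
  have hz0 : 0 < z := by rw [hz]; exact Real.exp_pos _
  have hq1 : 1 ≤ q := by rw [hq]; exact Real.one_le_exp (by linarith)
  have hp0 : 0 < p := by rw [hp]; exact Real.exp_pos _
  have hyz : y ≤ z := by
    rw [hzy]
    nlinarith
  have hX4 : 4 * X * p ≤ y := by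
    have h1 : X ≤ Real.exp (-(512 * L)) := by
      rw [hX]
      apply Real.exp_le_exp.2
      linarith
    have h2 : 4 * X * p ≤ Real.exp L * Real.exp (-(512 * L)) * p := by
      apply mul_le_mul_of_nonneg_right _ hp0.le
      exact mul_le_mul (by linarith) h1 hX0.le (Real.exp_pos _).le
    have h3 : Real.exp L * Real.exp (-(512 * L)) * p = Real.exp (-(506 * L)) := by
      rw [hp, ← Real.exp_add, ← Real.exp_add]
      congr 1
      ring
    have h4 : Real.exp (-(506 * L)) ≤ y := by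
      rw [hy]
      apply Real.exp_le_exp.2
      linarith
    linarith
  rw [← hX] at hW
  rw [← hy, ← hz]
  rw [← hq] at hmN
  rw [← hp] at hDu
  have hWz : (W : ℝ) / (32 * c ^ 2) ≤ z * n := by
    rw [div_le_iff₀ (by positivity)]
    have h1 : X * m ≤ z := by
      have e1 : X * m ≤ X * p := mul_le_mul_of_nonneg_left (by linarith) hX0.le
      have e2 : 0 ≤ X * p := by positivity
      have e3 : 4 * X * p = 4 * (X * p) := by ring
      linarith
    have h2 : 4 * X ≤ 32 * c ^ 2 * z := by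
      have e1 : 4 * X ≤ c ^ 2 * m * X := mul_le_mul_of_nonneg_right hcm hX0.le
      have e2 : c ^ 2 * m * X = c ^ 2 * (X * m) := by ring
      have e3 : c ^ 2 * (X * m) ≤ c ^ 2 * z := mul_le_mul_of_nonneg_left h1 hc2.le
      have e4 : 0 ≤ c ^ 2 * z := by positivity
      have e5 : 32 * c ^ 2 * z = 32 * (c ^ 2 * z) := by ring
      linarith
    calc (W : ℝ) ≤ 4 * X * n := hW
      _ ≤ (32 * c ^ 2 * z) * n := mul_le_mul_of_nonneg_right h2 hn0
      _ = z * n * (32 * c ^ 2) := by ring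
  have hb : ((⌊z * n⌋₊ : ℕ) : ℝ) ≤ z * n := Nat.floor_le (by positivity)
  refine ⟨⌊y * n / N0⌋₊ - 1, ?_, by linarith⟩
  intro hW0
  have hW1 : (1 : ℝ) ≤ W := by exact_mod_cast Nat.one_le_iff_ne_zero.mpr hW0
  have hyn : (D : ℝ) ≤ y * n := by
    have h1 : 1 ≤ 4 * X * n := hW1.trans hW
    have h2 : p * 1 ≤ p * (4 * X * n) := mul_le_mul_of_nonneg_left h1 hp0.le
    have h3 : p * (4 * X * n) = (4 * X * p) * n := by ring
    have h4 : (4 * X * p) * n ≤ y * n := mul_le_mul_of_nonneg_right hX4 hn0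
    linarith
  obtain ⟨a, hadef⟩ : ∃ a : ℕ, a = ⌊y * n / N0⌋₊ := ⟨_, rfl⟩
  rw [← hadef]
  have ha1 : (a : ℝ) * N0 ≤ y * n := by
    have h1 : (a : ℝ) ≤ y * n / N0 := by
      rw [hadef]
      exact Nat.floor_le (by positivity)
    rwa [le_div_iff₀ hN0R] at h1
  have ha2 : y * n < (a + 1) * N0 := by
    have h1 : y * n / N0 < a + 1 := by
      rw [hadef]
      exact Nat.lt_floor_add_one _
    rwa [div_lt_iff₀ hN0R] at h1
  have ha3 : 1 ≤ a := by
    by_contra hcon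
    have h1 : a = 0 := by omega
    rw [h1] at ha2
    push_cast at ha2
    linarith
  have ha4 : (1 : ℝ) ≤ a := by exact_mod_cast ha3
  have haF : ((a - 1 : ℕ) : ℝ) + 1 = a := by
    have : a - 1 + 1 = a := by omega
    exact_mod_cast this
  rw [haF]
  refine ⟨by linarith [mul_comm (N0 : ℝ) a], ?_⟩
  have h2 : y * n < 2 * a * N0 := by
    have : ((a : ℝ) + 1) * N0 ≤ 2 * a * N0 := by
      apply mul_le_mul_of_nonneg_right _ hN0R.le
      linarith
    linarith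
  -- `2 m (b + w) ≤ 4 m z n = 4 m y q n`, and `8 m N0 q ≤ D`
  have h3 : 2 * (m : ℝ) * ((⌊z * n⌋₊ : ℕ) + W / (32 * c ^ 2)) ≤ 4 * m * (y * q * n) := by
    have e1 : ((⌊z * n⌋₊ : ℕ) : ℝ) + W / (32 * c ^ 2) ≤ 2 * (y * q * n) := by
      rw [← hzy]
      linarith
    have e2 : 2 * (m : ℝ) * ((⌊z * n⌋₊ : ℕ) + W / (32 * c ^ 2)) ≤
        2 * (m : ℝ) * (2 * (y * q * n)) := mul_le_mul_of_nonneg_left e1 (by linarith)
    calc _ ≤ _ := e2
      _ = _ := by ring
  have h4 : (4 * m * (y * q * n)) * (2 * N0) < (a * D) * (2 * N0) := by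
    have e1 : (8 * ((m : ℝ) * N0) * q) * (y * n) ≤ D * (y * n) :=
      mul_le_mul_of_nonneg_right hmN (by positivity)
    have e2 : D * (y * n) < D * (2 * a * N0) := mul_lt_mul_of_pos_left h2 hDR
    calc (4 * m * (y * q * n)) * (2 * N0) = (8 * ((m : ℝ) * N0) * q) * (y * n) := by ring
      _ ≤ _ := e1
      _ < _ := e2
      _ = _ := by ring
  have h5 : 4 * m * (y * q * n) < a * D := lt_of_mul_lt_mul_right h4 (by positivity)
  linarith

theorem num_f (L t : ℝ) (D f n T m : ℕ) (hL1 : (1024 : ℝ) ≤ Real.exp L) (ht : 12 * L ≤ t)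
    (hDu : (D : ℝ) ≤ Real.exp (5 * L)) (hT : (n : ℝ) ≤ 2 * T) (hm1 : (1 : ℝ) ≤ m)
    (hf : (f : ℝ) ≤ 2 * Real.exp (-t) * n) :
    (f = 0 ∨ 2 * ((4 * f + 2) * (D ^ 2 + 3)) ≤ T) ∧ 6 * (f : ℝ) * D ≤ m * n := by
  have hLpos : 0 < L := by
    by_contra h
    rw [not_lt] at h
    have h1 := Real.exp_le_one_iff.2 h
    linarith
  have hn0 : (0 : ℝ) ≤ n := Nat.cast_nonneg _
  have hf0 : (0 : ℝ) ≤ f := Nat.cast_nonneg _
  have hD0 : (0 : ℝ) ≤ D := Nat.cast_nonneg _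
  have h2L : (192 : ℝ) ≤ Real.exp (2 * L) := by
    have h1 : Real.exp (2 * L) = Real.exp L * Real.exp L := by
      rw [← Real.exp_add]
      congr 1
      ring
    rw [h1]
    nlinarith
  have hz : Real.exp (-t) * Real.exp (10 * L) ≤ 1 / 192 := by
    have h1 : Real.exp (-t) * Real.exp (10 * L) ≤ Real.exp (-(2 * L)) := by
      rw [← Real.exp_add]
      apply Real.exp_le_exp.2
      linarith
    have h2 : Real.exp (-(2 * L)) ≤ 1 / 192 := by
      rw [Real.exp_neg, inv_eq_one_div]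
      exact one_div_le_one_div_of_le (by norm_num) h2L
    linarith
  have h10 : (1 : ℝ) ≤ Real.exp (10 * L) := Real.one_le_exp (by linarith)
  have hD2 : (D : ℝ) ^ 2 ≤ Real.exp (10 * L) := by
    have h1 : Real.exp (10 * L) = Real.exp (5 * L) ^ 2 := by
      rw [← Real.exp_nat_mul]
      congr 1
      push_cast
      ring
    rw [h1]
    exact pow_le_pow_left₀ hD0 hDu 2
  have hD1 : (D : ℝ) ≤ Real.exp (10 * L) :=
    hDu.trans (Real.exp_le_exp.2 (by linarith))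
  have hfz : (f : ℝ) * Real.exp (10 * L) ≤ n / 96 := by
    have h1 : (f : ℝ) * Real.exp (10 * L) ≤ (2 * Real.exp (-t) * n) * Real.exp (10 * L) :=
      mul_le_mul_of_nonneg_right hf (by linarith)
    have h2 : (2 * Real.exp (-t) * n) * Real.exp (10 * L) =
        2 * (Real.exp (-t) * Real.exp (10 * L)) * n := by ring
    have h3 : 2 * (Real.exp (-t) * Real.exp (10 * L)) * n ≤ 2 * (1 / 192) * n :=
      mul_le_mul_of_nonneg_right (by linarith) hn0
    linarith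
  constructor
  · by_cases hf1 : f = 0
    · exact Or.inl hf1
    · right
      have hf2 : (1 : ℝ) ≤ f := by exact_mod_cast Nat.one_le_iff_ne_zero.mpr hf1
      have h1 : (2 * ((4 * f + 2) * (D ^ 2 + 3)) : ℝ) ≤ T := by
        have e1 : ((D : ℝ) ^ 2 + 3) ≤ 4 * Real.exp (10 * L) := by linarith
        have e2 : (4 * (f : ℝ) + 2) ≤ 6 * f := by linarith
        have e3 : (4 * (f : ℝ) + 2) * ((D : ℝ) ^ 2 + 3) ≤ (6 * f) * (4 * Real.exp (10 * L)) :=
          mul_le_mul e2 e1 (by positivity) (by positivity)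
        have e4 : (6 * (f : ℝ)) * (4 * Real.exp (10 * L)) = 24 * (f * Real.exp (10 * L)) := by ring
        linarith
      exact_mod_cast h1
  · have h1 : (f : ℝ) * D ≤ f * Real.exp (10 * L) := mul_le_mul_of_nonneg_left hD1 hf0
    have h2 : (1 : ℝ) * n ≤ m * n := mul_le_mul_of_nonneg_right hm1 hn0
    have h3 : 6 * (f : ℝ) * D = 6 * (f * D) := by ring
    linarith

end Pool.Agent.helper77.Hull
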