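import Pool.Agent.helper77.Hull.Assemble
import Pool.Agent.helper77.Hull.Num

set_option autoImplicit false

/-!
# Exact bisections that are good at all low vertices, at a set `S` of hubs and at the giants, if
bootstrap percolation in the low part is bounded at one scale
-/

namespace Pool.Agent.helper77.Hull

open Finset Pool.Agent.helper2.Bis Pool.Agent.helper83.Bis

/-- exact bisections of (spanning subgraphs) `R`, edge-minimal of minimum degree `m`: good at all
vertices of `R`-degree at most `D`, at all `S`, at all giants -/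
theorem core_k (c L t : ℝ) (hc : 0 < c) (hc32 : c ≤ 1 / 32) (hL : 0 ≤ L) (m k D : ℕ) (hm1 : 1 ≤ m)
    (hm4 : 4 / c ^ 2 ≤ (m : ℝ)) (hDle : (D : ℝ) ≤ Real.exp (c ^ 2 / 8 * m))
    (hEL : 11 * (m : ℝ) ^ 2 * Real.exp L ≤ D)
    (hDB : 8 * (m : ℝ) ^ 2 * Real.exp (2 * L) / c ≤ D) (hDu : (D : ℝ) ≤ Real.exp (5 * L))
    (hL1m : (1024 : ℝ) ≤ Real.exp L) (hcL : 64 * L ≤ c ^ 2 * m) (ht : 12 * L ≤ t)
    (ht' : t ≤ 100 * L)
    (hkm : (k : ℝ) ≤ (1 / 2 - 12 * c) * m)
    (V : Type) [Fintype V] [DecidableEq V] (P R : V → V → Prop) (hRP : ∀ u v, R u v → P u v)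
    (hsymm : ∀ u v, R u v → R v u) (hirr : ∀ v, ¬ R v v)
    (hdeg : ∀ v, m ≤ dg R v) (hedge : ∀ u v, R u v → dg R u = m ∨ dg R v = m)
    (S Q : Finset V) (hS : ∀ u ∈ S, D < dg R u) (hQ : ∀ v ∈ Q, dg R v ≤ D)
    (hpoor : ∀ v, v ∉ Q → dg R v ≤ D → ((nb R v ∩ (Q ∪ S)).card : ℝ) ≤ c * m)
    (hull : ∀ Z ⊆ Q, (Z.card : ℝ) ≤ Real.exp (-(t + 2 * L)) * Fintype.card V →
      ∃ X : Finset V, Z ⊆ X ∧ (X.card : ℝ) ≤ Real.exp (-t) * Fintype.card V ∧
        ∀ v ∈ Q, v ∉ X → ((nb R v ∩ X).card : ℝ) < c * m)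
    (J : ℝ) (hJ : J = 1 ∨ J = -1) :
    ∃ e : V → ℝ, (∀ v, e v = 1 ∨ e v = -1) ∧ |∑ v, e v| ≤ 1 ∧
      (∀ v, (dg R v ≤ D ∨ v ∈ S ∨ Real.exp (-L) * Fintype.card V ≤ (dg P v : ℝ)) →
        k ≤ ((nb P v).filter (fun w => J * e v * e w = 1)).card) ∧
      D * Set.ncard {v : V | D < dg R v} ≤ m * Fintype.card V := by
  classical
  have hm1R : (1 : ℝ) ≤ m := by exact_mod_cast hm1
  have hc2pos : 0 < c ^ 2 := by positivity
  have hc64 : c ^ 2 ≤ 1 / 1024 := by nlinarith
  have hcm : 4 ≤ c ^ 2 * m := by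
    rw [div_le_iff₀ hc2pos] at hm4
    linarith
  have hm4096 : (4096 : ℝ) ≤ m := by
    have h1 : (4 : ℝ) * 1024 ≤ 4 / c ^ 2 := by
      rw [le_div_iff₀ hc2pos]
      nlinarith
    linarith
  have hcm2 : 128 ≤ c * m := by
    have h1 : c ^ 2 * m ≤ 1 / 32 * (c * m) := by
      have : c * (c * m) ≤ 1 / 32 * (c * m) := mul_le_mul_of_nonneg_right hc32 (by positivity)
      calc c ^ 2 * m = c * (c * m) := by ring
        _ ≤ _ := this
    linarith
  have hL1 : 1 ≤ Real.exp L := Real.one_le_exp hL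
  have hD11 : 11 * (m : ℝ) ^ 2 ≤ D := by
    have : 11 * (m : ℝ) ^ 2 * 1 ≤ 11 * (m : ℝ) ^ 2 * Real.exp L :=
      mul_le_mul_of_nonneg_left hL1 (by positivity)
    linarith
  have hDpos : (0 : ℝ) < D := by nlinarith
  have hmD : 2 * m ≤ D := by
    have h1 : 2 * (m : ℝ) ≤ D := by nlinarith
    exact_mod_cast h1
  have hD4 : 4 ≤ D := by
    have h1 : (4 : ℝ) ≤ D := by nlinarith
    exact_mod_cast h1
  have h2k : 2 * k ≤ m := by
    have : 2 * (k : ℝ) ≤ m := by nlinarith
    exact_mod_cast this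
  -- the trivial case
  by_cases hV : IsEmpty V
  · refine ⟨fun _ => 1, fun _ => Or.inl rfl, ?_, fun v => (hV.false v).elim, ?_⟩
    · simp
    · have : {v : V | D < dg R v} = ∅ := by
        ext v
        exact (hV.false v).elim
      rw [this]
      simp
  rw [not_isEmpty_iff] at hV
  obtain ⟨v0⟩ := hV
  -- hubs
  set H : Finset V := univ.filter (fun v => D < dg R v) with hH
  have hHm' : ∀ h ∈ H, ∀ v, R h v → v ∉ H ∧ dg R v = m := by
    intro h hh v hv
    have h1 : D < dg R h := (mem_filter.mp hh).2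
    have h2 : dg R v = m := by
      rcases hedge h v hv with h3 | h3
      · omega
      · exact h3
    refine ⟨?_, h2⟩
    intro h3
    have := (mem_filter.mp h3).2
    omega
  have hDlow : ∀ v, v ∉ H → dg R v ≤ D := by
    intro v hv
    by_contra hcon
    exact hv (mem_filter.mpr ⟨mem_univ _, by omega⟩)
  set T : Finset V := univ.filter (fun v => v ∉ H) with hT
  have hTH : T.card + H.card = Fintype.card V := by
    have := Finset.card_filter_add_card_filter_not (s := (univ : Finset V)) (fun v => v ∉ H)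
    have e : univ.filter (fun v => ¬ (v ∉ H)) = H := by ext v; simp
    rw [e] at this
    exact this
  have hBc : ∀ v : V, (nb R v ∩ H).card ≤ m := by
    intro v
    by_cases hne : (nb R v ∩ H).Nonempty
    · obtain ⟨h, hh⟩ := hne
      have hh' := mem_inter.mp hh
      have hdm : dg R v = m := (hHm' h hh'.2 v (hsymm _ _ (mem_nb.mp hh'.1))).2
      rw [← hdm]
      exact Finset.card_le_card Finset.inter_subset_left
    · rw [Finset.not_nonempty_iff_eq_empty.mp hne]
      simp
  -- number of hubs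
  have hHT : D * H.card ≤ m * T.card := by
    have h1 : H.card * D ≤ ∑ h ∈ H, dg R h := by
      rw [← smul_eq_mul]
      exact Finset.card_nsmul_le_sum _ _ _ (fun h hh => (mem_filter.mp hh).2.le)
    have h2 : ∑ h ∈ H, dg R h = ∑ v ∈ T, (nb R v ∩ H).card := by
      have e1 : ∀ h ∈ H, dg R h = ∑ v ∈ T, if R h v then 1 else 0 := by
        intro h hh
        rw [Finset.sum_boole]
        unfold dg
        simp only [Nat.cast_id]
        congr 1
        ext v
        simp only [mem_nb, hT, mem_filter, mem_univ, true_and]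
        exact ⟨fun hv => ⟨(hHm' h hh v hv).1, hv⟩, fun hv => hv.2⟩
      have e2 : ∀ v ∈ T, (nb R v ∩ H).card = ∑ h ∈ H, if R h v then 1 else 0 := by
        intro v _
        rw [Finset.sum_boole]
        simp only [Nat.cast_id]
        congr 1
        ext h
        simp only [mem_inter, mem_nb, mem_filter]
        exact ⟨fun hh => ⟨hh.2, hsymm _ _ hh.1⟩, fun hh => ⟨hsymm _ _ hh.2, hh.1⟩⟩
      rw [Finset.sum_congr rfl e1, Finset.sum_congr rfl e2, Finset.sum_comm]
    have h3 : ∑ v ∈ T, (nb R v ∩ H).card ≤ ∑ _v ∈ T, m :=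
      Finset.sum_le_sum (fun v _ => hBc v)
    rw [Finset.sum_const, smul_eq_mul] at h3
    calc D * H.card = H.card * D := mul_comm _ _
      _ ≤ _ := h1
      _ = _ := h2
      _ ≤ _ := h3
      _ = m * T.card := mul_comm _ _
  have hHT4 : H.card ≤ T.card := by
    have h1 : m * H.card ≤ m * T.card := (Nat.mul_le_mul_right _ (by omega)).trans hHT
    exact Nat.le_of_mul_le_mul_left h1 (by omega)
  have hVm : m + 1 ≤ Fintype.card V := by
    have h1 := hdeg v0
    have h2 : (insert v0 (nb R v0)).card ≤ Fintype.card V := Finset.card_le_univ _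
    rw [Finset.card_insert_of_notMem (fun h => hirr v0 (mem_nb.mp h))] at h2
    unfold dg at h1
    omega
  have hm4096' : 4096 ≤ m := by exact_mod_cast hm4096
  have hT8 : 8 ≤ T.card := by omega
  have hn0 : (0 : ℝ) ≤ Fintype.card V := Nat.cast_nonneg _
  -- random signs on the hubs
  obtain ⟨s0, hs0, hs0sum, hs0W⟩ := signs H (fun v : V => nb R v ∩ H)
    (fun v => Finset.inter_subset_right) m (by omega) hBc (4 * c * m) (by positivity)
  set W : ℕ := Set.ncard {v : V | 4 * c * m < |∑ h ∈ nb R v ∩ H, s0 h|} with hWdef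
  have hW : (W : ℝ) ≤ 4 * Real.exp (-(8 * c ^ 2 * m)) * T.card := by
    have h3 : -((4 * c * m) ^ 2) / (2 * m) = -(8 * c ^ 2 * m) := by
      field_simp
      norm_num
    rw [h3] at hs0W
    have h4 : (Fintype.card V : ℝ) ≤ 2 * T.card := by
      have : Fintype.card V ≤ 2 * T.card := by omega
      exact_mod_cast this
    calc (W : ℝ) ≤ 2 * Real.exp (-(8 * c ^ 2 * m)) * Fintype.card V := hs0W
      _ ≤ 2 * Real.exp (-(8 * c ^ 2 * m)) * (2 * T.card) :=
          mul_le_mul_of_nonneg_left h4 (by positivity)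
      _ = _ := by ring
  -- the size of the sets serving the middle hubs
  set N0 : ℕ := ⌈(m : ℝ) / (2 * c)⌉₊ with hN0def
  have hN01 : (m : ℝ) / (2 * c) ≤ N0 := Nat.le_ceil _
  have hN02 : (N0 : ℝ) ≤ m / c := by
    have h1 : (N0 : ℝ) < m / (2 * c) + 1 := Nat.ceil_lt_add_one (by positivity)
    have h2 : (1 : ℝ) ≤ m / (2 * c) := by
      rw [le_div_iff₀ (by positivity)]
      linarith
    have h3 : (m : ℝ) / c = m / (2 * c) + m / (2 * c) := by
      field_simp
      norm_num
    linarith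
  have hN0m : 2 * (m : ℝ) ≤ 4 * c * N0 := by
    rw [div_le_iff₀ (by positivity)] at hN01
    linarith
  have hmN : 8 * ((m : ℝ) * N0) * Real.exp (2 * L) ≤ D := by
    have h1 : (m : ℝ) * N0 ≤ m * (m / c) := mul_le_mul_of_nonneg_left hN02 (by linarith)
    have h2 : 8 * ((m : ℝ) * N0) * Real.exp (2 * L) ≤ 8 * (m * (m / c)) * Real.exp (2 * L) :=
      mul_le_mul_of_nonneg_right (by linarith) (Real.exp_pos _).le
    have h3 : 8 * ((m : ℝ) * (m / c)) * Real.exp (2 * L) =
        8 * (m : ℝ) ^ 2 * Real.exp (2 * L) / c := by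
      field_simp
    linarith
  have he2L : 1 ≤ Real.exp (2 * L) := Real.one_le_exp (by linarith)
  have hmN' : 8 * ((m : ℝ) * N0) ≤ D := by
    have h1 : 8 * ((m : ℝ) * N0) * 1 ≤ 8 * ((m : ℝ) * N0) * Real.exp (2 * L) :=
      mul_le_mul_of_nonneg_left he2L (by positivity)
    linarith
  have h2N0D : 2 * N0 ≤ D := by
    have h1 : (1 : ℝ) * N0 ≤ m * N0 := mul_le_mul_of_nonneg_right hm1R (Nat.cast_nonneg _)
    have h2 : 2 * (N0 : ℝ) ≤ D := by
      have : (0 : ℝ) ≤ N0 := Nat.cast_nonneg _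
      linarith
    exact_mod_cast h2
  have hN0D : N0 ≤ D := by omega
  have hHN : 2 * (H.card * N0) ≤ T.card := by
    have h1 : (D : ℝ) * H.card ≤ m * T.card := by exact_mod_cast hHT
    have h2 : 2 * ((m : ℝ) * N0) ≤ D := by
      have : (0 : ℝ) ≤ (m : ℝ) * N0 := by positivity
      linarith
    have h3 : (2 * ((m : ℝ) * N0)) * H.card ≤ D * H.card :=
      mul_le_mul_of_nonneg_right h2 (Nat.cast_nonneg _)
    have h4 : (m : ℝ) * (2 * (H.card * N0)) ≤ m * T.card := by
      calc (m : ℝ) * (2 * (H.card * N0)) = (2 * ((m : ℝ) * N0)) * H.card := by ring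
        _ ≤ _ := h3
        _ ≤ _ := h1
    have h5 : (2 * (H.card * N0) : ℝ) ≤ T.card := le_of_mul_le_mul_left h4 (by linarith)
    exact_mod_cast h5
  -- the number of changed hubs
  have hN0pos : 0 < N0 := by
    have h1 : (0 : ℝ) < (m : ℝ) / (2 * c) := by positivity
    have h2 : (0 : ℝ) < N0 := by linarith
    exact_mod_cast h2
  have hTn : (T.card : ℝ) ≤ Fintype.card V := by exact_mod_cast (by omega : T.card ≤ _)
  have hWV : (W : ℝ) ≤ 4 * Real.exp (-(8 * c ^ 2 * m)) * Fintype.card V :=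
    hW.trans (mul_le_mul_of_nonneg_left hTn (by positivity))
  obtain ⟨F, hF1, hbW⟩ := num_k c L t hc m D N0 W (Fintype.card V) hm1R hcm hmD hDu hL1m hcL ht'
    hmN hN0pos h2N0D hWV
  have hcase : W = 0 ∨ ((∀ Z ⊆ Q, Z.card ≤ N0 * (F + 1) → ∃ X : Finset V, Z ⊆ X ∧
      X.card ≤ ⌊Real.exp (-t) * Fintype.card V⌋₊ ∧
        ∀ v ∈ Q, v ∉ X → ((nb R v ∩ X).card : ℝ) < c * m) ∧
      2 * (m : ℝ) * ((⌊Real.exp (-t) * Fintype.card V⌋₊ : ℕ) + W / (32 * c ^ 2)) <
        (F + 1) * D) := by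
    by_cases hW0 : W = 0
    · exact Or.inl hW0
    · right
      obtain ⟨h1, h2⟩ := hF1 hW0
      refine ⟨fun Z hZ hZc => ?_, h2⟩
      have h3 : (Z.card : ℝ) ≤ N0 * (F + 1) := by exact_mod_cast hZc
      obtain ⟨X, hX1, hX2, hX3⟩ := hull Z hZ (h3.trans h1)
      exact ⟨X, hX1, Nat.le_floor hX2, hX3⟩
  obtain ⟨s, q, f, hs, hsH, hq1, hq0, hx0, hx1, hY, hsum, hF, _, hfle⟩ :=
    state_k R hsymm hirr H J hJ
    m k D F ⌊Real.exp (-t) * Fintype.card V⌋₊ c hc hc32 hm1 (by linarith) hkm hdeg (fun h hh v hv => (hHm' h hh v hv).1) S Q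
    (fun u hu => mem_filter.2 ⟨mem_univ _, hS u hu⟩)
    (by
      rw [Finset.disjoint_left]
      intro v hv hvH
      have h1 := hQ v hv
      have h2 := (mem_filter.1 hvH).2
      omega)
    (fun u hu => (hS u hu).le) (fun v hv hvH => hpoor v hv (hDlow v hvH)) s0 hs0 hs0sum hBc W
    (le_refl _) N0 h2N0D hmD hcase
  -- the giants
  set G : Finset V := H.filter (fun v => v ∉ S ∧ Real.exp (-L) * Fintype.card V ≤ (dg P v : ℝ))
    with hG
  have hVT : (Fintype.card V : ℝ) ≤ 2 * T.card := by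
    have : Fintype.card V ≤ 2 * T.card := by omega
    exact_mod_cast this
  obtain ⟨hfT, hfD⟩ := num_f L t D f (Fintype.card V) T.card m hL1m ht hDu hVT hm1R
    (hfle.trans hbW)
  have hgiant : ∀ v ∈ G, 2 * m * G.card + H.card + 6 * f + 2 ≤ dg P v := by
    intro v hv
    have hvH := (Finset.mem_filter.1 hv).1
    have hvP := (Finset.mem_filter.1 hv).2.2
    have hDv : D < dg R v := (Finset.mem_filter.1 hvH).2
    have hDn : (D : ℝ) ≤ Fintype.card V := by
      have h1 : dg R v ≤ Fintype.card V := Finset.card_le_univ _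
      have h2 : D ≤ Fintype.card V := by omega
      exact_mod_cast h2
    have hGH : G.card ≤ H.card := Finset.card_le_card (Finset.filter_subset _ _)
    have hHn : (2 * (m : ℝ) + 1) * H.card * D ≤ 3 * (m : ℝ) ^ 2 * Fintype.card V := by
      have h1 : (D : ℝ) * H.card ≤ m * T.card := by exact_mod_cast hHT
      have h3 : (m : ℝ) * T.card ≤ m * Fintype.card V :=
        mul_le_mul_of_nonneg_left hTn (by linarith)
      calc (2 * (m : ℝ) + 1) * H.card * D = (2 * (m : ℝ) + 1) * (D * H.card) := by ring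
        _ ≤ (3 * m) * (m * Fintype.card V) :=
            mul_le_mul (by linarith) (h1.trans h3) (by positivity) (by positivity)
        _ = _ := by ring
    have h3 : (2 * m * H.card + H.card + 6 * f + 2 : ℝ) ≤ dg P v := by
      refine le_trans ?_ hvP
      have e1 : (2 * m * H.card + H.card + 6 * f + 2 : ℝ) * D ≤
          (11 * (m : ℝ) ^ 2) * Fintype.card V := by
        have e5 : (m : ℝ) * Fintype.card V ≤ (m : ℝ) ^ 2 * Fintype.card V :=
          mul_le_mul_of_nonneg_right (by nlinarith) hn0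
        have e6 : (1 : ℝ) * Fintype.card V ≤ (m : ℝ) ^ 2 * Fintype.card V :=
          mul_le_mul_of_nonneg_right (by nlinarith) hn0
        nlinarith
      have e7 : (11 * (m : ℝ) ^ 2) * Fintype.card V ≤ Real.exp (-L) * D * Fintype.card V := by
        apply mul_le_mul_of_nonneg_right _ hn0
        have e8 : Real.exp (-L) * (11 * (m : ℝ) ^ 2 * Real.exp L) ≤ Real.exp (-L) * D :=
          mul_le_mul_of_nonneg_left hEL (Real.exp_pos _).le
        have e9 : Real.exp (-L) * Real.exp L = 1 := by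
          rw [← Real.exp_add]
          simp
        calc 11 * (m : ℝ) ^ 2 = 11 * (m : ℝ) ^ 2 * (Real.exp (-L) * Real.exp L) := by
              rw [e9, mul_one]
          _ = Real.exp (-L) * (11 * (m : ℝ) ^ 2 * Real.exp L) := by ring
          _ ≤ _ := e8
      have e10 : (2 * m * H.card + H.card + 6 * f + 2 : ℝ) * D ≤
          (Real.exp (-L) * Fintype.card V) * D := by
        calc _ ≤ _ := e1
          _ ≤ _ := e7
          _ = _ := by ring
      exact le_of_mul_le_mul_right e10 hDpos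
    have h4 : 2 * m * H.card + H.card + 6 * f + 2 ≤ dg P v := by exact_mod_cast h3
    have h5 : 2 * m * G.card ≤ 2 * m * H.card := Nat.mul_le_mul_left _ hGH
    omega
  obtain ⟨e, he1, he2, he3⟩ := assemble_k P R hRP hsymm H J hJ m k D N0 c hc hc32 hm4 hDle hmD hD4
    h2k hdeg hDlow (fun h hh v hv => (hHm' h hh v hv).1) S G
    (fun u hu => mem_filter.2 ⟨mem_univ _, hS u hu⟩) (Finset.filter_subset _ _)
    (by
      rw [Finset.disjoint_left]
      intro v hv hvG
      exact (Finset.mem_filter.1 hvG).2.1 hv)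
    s q f hs hsH hq1 hq0 hx0 hx1 hY hsum hF T hT hT8 hfT hN0m hN0D hHN hgiant
  refine ⟨e, he1, he2, ?_, ?_⟩
  · intro v hv
    apply he3 v
    by_cases hvH : v ∈ H
    · by_cases hvS : v ∈ S
      · exact Or.inr (Or.inl hvS)
      · right; right
        rcases hv with hv | hv | hv
        · have := (mem_filter.mp hvH).2
          omega
        · exact absurd hv hvS
        · exact Finset.mem_filter.2 ⟨hvH, hvS, hv⟩
    · exact Or.inl hvH
  · have eH : Set.ncard {v : V | D < dg R v} = H.card := by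
      rw [← Set.ncard_coe_finset]
      congr 1
      ext v
      simp [hH]
    rw [eH]
    exact hHT.trans (Nat.mul_le_mul_left _ (by omega))

end Pool.Agent.helper77.Hull
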