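import Pool.Agent.helper77.Hull.Core
import Pool.Agent.helper40.Bis.Final

set_option autoImplicit false

/-!
# From the core theorem with served hubs to graphs: exact bisections that are good at all vertices
-/

namespace Pool.Agent.helper77.Hull

open Finset Pool.Agent.helper2.Bis Pool.Agent.helper40.Bis

/-- the numerical part -/
theorem params_k (k m : ℕ) (L : ℝ) (hL : 1 ≤ L)
    (hm : 2 * (k : ℝ) + 131072 * (√(k * L) + L) ≤ m) (hmL : (m : ℝ) ≤ Real.exp L) :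
    ∃ c : ℝ, 0 < c ∧ c ≤ 1 / 32 ∧ c * m = ((m : ℝ) - 2 * k) / 32 ∧ 1 ≤ m ∧
      4 / c ^ 2 ≤ (m : ℝ) ∧ ((⌊Real.exp (5 * L)⌋₊ : ℕ) : ℝ) ≤ Real.exp (c ^ 2 / 8 * m) ∧
      11 * (m : ℝ) ^ 2 * Real.exp L ≤ ((⌊Real.exp (5 * L)⌋₊ : ℕ) : ℝ) ∧
      8 * (m : ℝ) ^ 2 * Real.exp (2 * L) / c ≤ ((⌊Real.exp (5 * L)⌋₊ : ℕ) : ℝ) ∧
      (k : ℝ) ≤ (1 / 2 - 12 * c) * m ∧ ((⌊Real.exp (5 * L)⌋₊ : ℕ) : ℝ) ≤ Real.exp (5 * L) ∧
      (1024 : ℝ) ≤ Real.exp L ∧ 64 * L ≤ c ^ 2 * m := by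
  have hk0 : (0 : ℝ) ≤ k := Nat.cast_nonneg k
  have hL0 : (0 : ℝ) ≤ L := by linarith
  set r : ℝ := √(k * L) with hr
  have hr0 : 0 ≤ r := Real.sqrt_nonneg _
  have hr2 : r ^ 2 = k * L := Real.sq_sqrt (mul_nonneg hk0 hL0)
  have hmpos : (0 : ℝ) < m := by linarith
  set y : ℝ := (m : ℝ) - 2 * k with hy
  have hy1 : 131072 * r ≤ y := by linarith
  have hy2 : 131072 * L ≤ y := by linarith
  have hy3 : (131072 : ℝ) ≤ y := by linarith
  have hym : y ≤ m := by linarith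
  set c : ℝ := y / (32 * m) with hc
  have hcpos : 0 < c := by positivity
  have hcm : c * m = y / 32 := by
    rw [hc]
    field_simp
  have hc32 : c ≤ 1 / 32 := by
    rw [hc, div_le_iff₀ (by positivity)]
    linarith
  have hc2m : 64 * L ≤ c ^ 2 * m := by
    have h1 : c ^ 2 * m = y ^ 2 / (1024 * m) := by
      rw [hc]
      field_simp
      norm_num
    rw [h1, le_div_iff₀ (by positivity)]
    have h2 : (m : ℝ) = 2 * k + y := by rw [hy]; ring
    rw [h2]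
    have h3 : (131072 * r) ^ 2 ≤ y ^ 2 := pow_le_pow_left₀ (by positivity) hy1 2
    have h4 : y * (131072 * L) ≤ y * y := mul_le_mul_of_nonneg_left hy2 (by linarith)
    have h5 : (131072 * r) ^ 2 = 131072 ^ 2 * (k * L) := by rw [mul_pow, hr2]
    rw [h5] at h3
    have h6 : 0 ≤ (k : ℝ) * L := mul_nonneg hk0 hL0
    have h7 : 0 ≤ y * L := mul_nonneg (by linarith) hL0
    nlinarith
  have hX : (131072 : ℝ) ≤ Real.exp L := by linarith
  set X : ℝ := Real.exp L with hXdef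
  have hX0 : 0 < X := Real.exp_pos _
  have hX5 : Real.exp (5 * L) = X ^ 5 := by
    rw [hXdef, ← Real.exp_nat_mul]
    norm_num
  have hfl : Real.exp (5 * L) < ((⌊Real.exp (5 * L)⌋₊ : ℕ) : ℝ) + 1 := Nat.lt_floor_add_one _
  have hfl2 : ((⌊Real.exp (5 * L)⌋₊ : ℕ) : ℝ) ≤ Real.exp (5 * L) :=
    Nat.floor_le (Real.exp_pos _).le
  have hfl' : X ^ 5 < ((⌊Real.exp (5 * L)⌋₊ : ℕ) : ℝ) + 1 := by linarith
  have hX1 : (1 : ℝ) ≤ X := by linarith
  have hX4 : (1 : ℝ) ≤ X ^ 4 := one_le_pow₀ hX1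
  have hX3 : (0 : ℝ) < X ^ 3 := by positivity
  have hX54 : 131072 * X ^ 4 ≤ X ^ 5 := by
    calc 131072 * X ^ 4 ≤ X * X ^ 4 := mul_le_mul_of_nonneg_right hX (by positivity)
      _ = X ^ 5 := by ring
  have hX43 : X ^ 3 ≤ X ^ 4 := pow_le_pow_right₀ hX1 (by norm_num)
  refine ⟨c, hcpos, hc32, hcm, ?_, ?_, ?_, ?_, ?_, ?_, hfl2, by linarith, hc2m⟩
  · have : (1 : ℝ) ≤ m := by linarith
    exact_mod_cast this
  · rw [div_le_iff₀ (by positivity)]
    linarith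
  · refine hfl2.trans (Real.exp_le_exp.2 ?_)
    linarith
  · have h1 : (m : ℝ) ^ 2 ≤ X ^ 2 := pow_le_pow_left₀ hmpos.le hmL 2
    have h2 : 11 * (m : ℝ) ^ 2 * X ≤ 11 * X ^ 2 * X := by
      apply mul_le_mul_of_nonneg_right _ hX0.le
      linarith
    have h3 : 11 * X ^ 2 * X = 11 * X ^ 3 := by ring
    linarith
  · have h0 : Real.exp (2 * L) = X ^ 2 := by
      rw [hXdef, ← Real.exp_nat_mul]
      norm_num
    have h1 : (m : ℝ) ^ 3 ≤ X ^ 3 := pow_le_pow_left₀ hmpos.le hmL 3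
    have h2 : 8 * (m : ℝ) ^ 2 * X ^ 2 / c = 256 * m ^ 3 * X ^ 2 / y := by
      rw [hc]
      field_simp
      norm_num
    rw [h0, h2, div_le_iff₀ (by linarith)]
    have h3 : 256 * (m : ℝ) ^ 3 * X ^ 2 ≤ 256 * X ^ 3 * X ^ 2 := by
      apply mul_le_mul_of_nonneg_right _ (by positivity)
      linarith
    have h4 : 256 * X ^ 3 * X ^ 2 = 256 * X ^ 5 := by ring
    have h5 : (0 : ℝ) ≤ ((⌊Real.exp (5 * L)⌋₊ : ℕ) : ℝ) := Nat.cast_nonneg _
    have h6 : ((⌊Real.exp (5 * L)⌋₊ : ℕ) : ℝ) * 131072 ≤ ((⌊Real.exp (5 * L)⌋₊ : ℕ) : ℝ) * y :=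
      mul_le_mul_of_nonneg_left (by linarith) h5
    linarith
  · have h1 : (1 / 2 - 12 * c) * m = m / 2 - 12 * (c * m) := by ring
    rw [h1, hcm]
    linarith

theorem classGoodK (k m : ℕ) (L : ℝ) (hL : 1 ≤ L)
    (hm : 2 * (k : ℝ) + 131072 * (√(k * L) + L) ≤ m) (hmL : (m : ℝ) ≤ Real.exp L)
    (V : Type) [Fintype V] [DecidableEq V] (G : SimpleGraph V) [DecidableRel G.Adj]
    (hG : ∀ v, m ≤ G.degree v) (hmin : ∀ u v, G.Adj u v → G.degree u = m ∨ G.degree v = m)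
    (Q : Finset V) (hQ : ∀ v ∈ Q, (G.degree v : ℝ) ≤ Real.exp (5 * L))
    (hpoor : ∀ v, v ∉ Q → (G.degree v : ℝ) ≤ Real.exp (5 * L) →
      (Set.ncard {w : V | G.Adj v w ∧ (w ∈ Q ∨ (Real.exp (5 * L) < (G.degree w : ℝ) ∧
        (G.degree w : ℝ) < Real.exp (-L) * Fintype.card V))} : ℝ) ≤ ((m : ℝ) - 2 * k) / 32)
    (t : ℝ) (ht : 12 * L ≤ t) (ht' : t ≤ 100 * L)
    (hull : ∀ Z ⊆ Q, (Z.card : ℝ) ≤ Real.exp (-(t + 2 * L)) * Fintype.card V → ∃ W : Finset V,
      Z ⊆ W ∧ (W.card : ℝ) ≤ Real.exp (-t) * Fintype.card V ∧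
      ∀ v ∈ Q, v ∉ W → ((G.neighborFinset v ∩ W).card : ℝ) < ((m : ℝ) - 2 * k) / 32) :
    (∃ A : Finset V,
        |2 * (A.card : ℤ) - (Fintype.card V : ℤ)| ≤ 1 ∧
        ∀ v : V, k ≤ ((G.neighborFinset v).filter (fun w => (w ∈ A ↔ v ∈ A))).card) ∧
    (∃ A : Finset V,
        |2 * (A.card : ℤ) - (Fintype.card V : ℤ)| ≤ 1 ∧
        ∀ v : V, k ≤ ((G.neighborFinset v).filter (fun w => (w ∈ A ↔ v ∉ A))).card) := by
  classical
  obtain ⟨c, hc, hc32, hcm, hm1, hm4, hDle, hEL, hDB, hkm, hDu, hL1, hcL⟩ :=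
    params_k k m L hL hm hmL
  set D : ℕ := ⌊Real.exp (5 * L)⌋₊ with hD
  have hnbG : ∀ v, nb G.Adj v = G.neighborFinset v := by
    intro v
    ext w
    simp [mem_nb]
  have hdgG : ∀ v, dg G.Adj v = G.degree v := by
    intro v
    unfold dg
    rw [hnbG, SimpleGraph.card_neighborFinset_eq_degree]
  have hDiff : ∀ v, D < G.degree v ↔ Real.exp (5 * L) < (G.degree v : ℝ) := by
    intro v
    rw [hD, Nat.floor_lt (Real.exp_pos _).le]
  have hDiff' : ∀ v, G.degree v ≤ D ↔ (G.degree v : ℝ) ≤ Real.exp (5 * L) := by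
    intro v
    rw [← not_lt, hDiff v, not_lt]
  set S : Finset V := univ.filter (fun v => D < G.degree v ∧
    (G.degree v : ℝ) < Real.exp (-L) * Fintype.card V) with hS
  have main : ∀ J : ℝ, J = 1 ∨ J = -1 → ∃ e : V → ℝ, (∀ v, e v = 1 ∨ e v = -1) ∧
      |2 * ((univ.filter (fun v => e v = 1)).card : ℤ) - (Fintype.card V : ℤ)| ≤ 1 ∧
      ∀ v, k ≤ ((nb G.Adj v).filter (fun w => J * e v * e w = 1)).card := by
    intro J hJ
    obtain ⟨e, he1, he2, he3, _⟩ := core_k c L t hc hc32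
      (by linarith) m k D hm1 hm4 hDle hEL hDB hDu hL1 hcL ht ht' hkm V G.Adj G.Adj
      (fun _ _ h => h)
      (fun u v h => h.symm) (fun v hv => G.loopless.irrefl v hv)
      (fun v => by rw [hdgG]; exact hG v)
      (fun u v h => by rw [hdgG, hdgG]; exact hmin u v h) S Q
      (fun u hu => by
        rw [hdgG]
        exact (mem_filter.mp hu).2.1)
      (fun v hv => by
        rw [hdgG, hDiff']
        exact hQ v hv)
      (fun v hv hv' => by
        rw [hdgG, hDiff'] at hv'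
        rw [hcm]
        refine le_trans ?_ (hpoor v hv hv')
        have h1 : (nb G.Adj v ∩ (Q ∪ S)).card ≤
            Set.ncard {w : V | G.Adj v w ∧ (w ∈ Q ∨ (Real.exp (5 * L) < (G.degree w : ℝ) ∧
            (G.degree w : ℝ) < Real.exp (-L) * Fintype.card V))} := by
          rw [← Set.ncard_coe_finset]
          apply Set.ncard_le_ncard _ (Set.toFinite _)
          intro w hw
          have hw' := Finset.mem_inter.1 (Finset.mem_coe.1 hw)
          refine ⟨mem_nb.1 hw'.1, ?_⟩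
          rcases Finset.mem_union.1 hw'.2 with h2 | h2
          · exact Or.inl h2
          · right
            have h3 := (mem_filter.mp h2).2
            exact ⟨(hDiff w).1 h3.1, h3.2⟩
        exact_mod_cast h1)
      (fun Z hZ hZc => by
        obtain ⟨W, hW1, hW2, hW3⟩ := hull Z hZ hZc
        refine ⟨W, hW1, hW2, fun v hv hvW => ?_⟩
        rw [hcm, hnbG]
        exact hW3 v hv hvW) J hJ
    refine ⟨e, he1, ?_, fun v => he3 v ?_⟩
    · rw [sum_sign e he1 (univ.filter (fun v => e v = 1)) (by simp)] at he2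
      exact_mod_cast he2
    · rw [hdgG]
      by_cases h1 : G.degree v ≤ D
      · exact Or.inl h1
      · right
        by_cases h2 : (G.degree v : ℝ) < Real.exp (-L) * Fintype.card V
        · exact Or.inl (Finset.mem_filter.2 ⟨Finset.mem_univ _, not_le.1 h1, h2⟩)
        · exact Or.inr (not_lt.1 h2)
  constructor
  · obtain ⟨e, he1, he2, he3⟩ := main 1 (Or.inl rfl)
    refine ⟨_, he2, fun v => (he3 v).trans (Finset.card_le_card ?_)⟩
    intro w hw
    rw [Finset.mem_filter, hnbG] at hw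
    rw [Finset.mem_filter]
    refine ⟨hw.1, ?_⟩
    have h1 := hw.2
    simp only [Finset.mem_filter, Finset.mem_univ, true_and]
    rcases he1 v with h | h <;> rcases he1 w with h' | h' <;> rw [h, h'] at h1 ⊢ <;>
      first | (exfalso; revert h1; norm_num; done) | norm_num
  · obtain ⟨e, he1, he2, he3⟩ := main (-1) (Or.inr rfl)
    refine ⟨_, he2, fun v => (he3 v).trans (Finset.card_le_card ?_)⟩
    intro w hw
    rw [Finset.mem_filter, hnbG] at hw
    rw [Finset.mem_filter]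
    refine ⟨hw.1, ?_⟩
    have h1 := hw.2
    simp only [Finset.mem_filter, Finset.mem_univ, true_and]
    rcases he1 v with h | h <;> rcases he1 w with h' | h' <;> rw [h, h'] at h1 ⊢ <;>
      first | (exfalso; revert h1; norm_num; done) | norm_num

end Pool.Agent.helper77.Hull
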