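import Pool.Agent.helper77.Hull.Cascade
import Pool.Agent.helper14.LE.State

set_option autoImplicit false

/-!
# The fractional state after the cascade
-/

namespace Pool.Agent.helper77.Hull

open Finset Pool.Agent.helper2.Bis Pool.Agent.helper83.Bis

theorem state_k {V : Type} [Fintype V] [DecidableEq V] (R : V → V → Prop)
    (hsymm : ∀ u v, R u v → R v u) (hirr : ∀ v, ¬ R v v) (H : Finset V) (J : ℝ)
    (hJ : J = 1 ∨ J = -1) (m k D F b : ℕ) (c : ℝ) (hc : 0 < c) (hc32 : c ≤ 1 / 32) (hm : 1 ≤ m)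
    (hcm2 : 2 ≤ c * m) (hkm : (k : ℝ) ≤ (1 / 2 - 12 * c) * m)
    (hdeg : ∀ v, m ≤ dg R v) (hHm : ∀ h ∈ H, ∀ v, R h v → v ∉ H)
    (S Q : Finset V) (hSH : S ⊆ H) (hQH : Disjoint Q H) (hDS : ∀ u ∈ S, D ≤ dg R u)
    (hpoor : ∀ v, v ∉ Q → v ∉ H → ((nb R v ∩ (Q ∪ S)).card : ℝ) ≤ c * m)
    (s0 : V → ℝ) (hs0 : ∀ h, s0 h = 1 ∨ s0 h = -1) (hs0sum : |∑ h ∈ H, s0 h| ≤ 1)
    (hBc : ∀ v : V, (nb R v ∩ H).card ≤ m) (W : ℕ)
    (hW : Set.ncard {v : V | 4 * c * m < |∑ h ∈ nb R v ∩ H, s0 h|} ≤ W)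
    (N0 : ℕ) (hN0D : 2 * N0 ≤ D) (hmD : 2 * m ≤ D)
    (hcase : W = 0 ∨ ((∀ Z ⊆ Q, Z.card ≤ N0 * (F + 1) → ∃ X : Finset V, Z ⊆ X ∧
      X.card ≤ b ∧ ∀ v ∈ Q, v ∉ X → ((nb R v ∩ X).card : ℝ) < c * m) ∧
      2 * (m : ℝ) * (b + W / (32 * c ^ 2)) < (F + 1) * D)) :
    ∃ (s q : V → ℝ) (f : ℕ), (∀ v, s v = 1 ∨ s v = -1 ∨ s v = 0) ∧ (∀ h ∈ H, s h ≠ 0) ∧
      (∀ v, s v ≠ 0 → q v = s v / 2) ∧ (∀ v, s v = 0 → |q v| ≤ 1 / 2) ∧
      (∀ v, v ∉ H → s v = 0 →
        |J * ∑ w ∈ nb R v, q w| ≤ (dg R v : ℝ) / 2 - k - c * dg R v) ∧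
      (∀ v, v ∉ H → s v ≠ 0 →
        -((dg R v : ℝ) / 2 - k - c * dg R v) ≤ s v * (J * ∑ w ∈ nb R v, q w)) ∧
      (∀ u ∈ S, ∃ Y ⊆ nb R u, Y.card = N0 ∧ ∀ w ∈ Y, 4 * c ≤ 1 + 2 * (J * s u * q w)) ∧
      |∑ h ∈ H, s h| ≤ 1 + 2 * f ∧
      (univ.filter (fun v => v ∉ H ∧ q v ≠ 0)).card ≤ 2 * f ∧ (W = 0 → f = 0) ∧
      (f : ℝ) ≤ b + W / (32 * c ^ 2) := by
  classical
  have hJ2 : |J| = 1 := by rcases hJ with rfl | rfl <;> simp
  have hJJ : J * J = 1 := by rcases hJ with rfl | rfl <;> norm_num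
  have hmR : (1 : ℝ) ≤ m := by exact_mod_cast hm
  obtain ⟨s1, q1, hs1, hs1H, hq1, hq10, hx0, hx1, hn1⟩ := Pool.Agent.helper14.LE.state R hsymm H J
    hJ m k (4 * c) (by linarith) (by linarith) hm (by linarith) hdeg s0 hs0 hBc W hW
  -- the truncated state
  set x : V → ℝ := fun v => if v ∈ H then s0 v else if 1 - 4 * c < 2 * q1 v then 1 else
    if 2 * q1 v < -(1 - 4 * c) then -1 else 2 * q1 v with hx
  have hq1H : ∀ v ∈ H, 2 * q1 v = s0 v := by
    intro v hv
    have h1 : s1 v ≠ 0 := by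
      rw [hs1H v hv]
      rcases hs0 v with h | h <;> rw [h] <;> norm_num
    rw [hq1 v h1, hs1H v hv]
    ring
  have hq1le : ∀ v, |2 * q1 v| ≤ 1 := by
    intro v
    by_cases h : s1 v = 0
    · have := abs_le.1 (hq10 v h)
      rw [abs_le]
      constructor <;> linarith [this.1, this.2]
    · rw [hq1 v h]
      rcases hs1 v with h' | h' | h'
      · rw [h']; norm_num
      · rw [h']; norm_num
      · exact absurd h' h
  have hxd : ∀ v, |x v - 2 * q1 v| ≤ 4 * c := by
    intro v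
    have h0 := abs_le.1 (hq1le v)
    simp only [hx]
    split_ifs with h1 h2 h3
    · rw [hq1H v h1, sub_self, abs_zero]; linarith
    · rw [abs_le]; constructor <;> linarith [h0.1, h0.2]
    · rw [abs_le]; constructor <;> linarith [h0.1, h0.2]
    · rw [sub_self, abs_zero]; linarith
  have hx01 : ∀ v, |x v| ≤ 1 := by
    intro v
    simp only [hx]
    split_ifs with h1 h2 h3
    · rcases hs0 v with h | h <;> rw [h] <;> norm_num
    · norm_num
    · norm_num
    · exact hq1le v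
  have hxH : ∀ v ∈ H, x v = s0 v := fun v hv => by simp [hx, hv]
  have hxcase : ∀ v, x v = 1 ∨ x v = -1 ∨ |x v| ≤ 1 - 4 * c := by
    intro v
    simp only [hx]
    split_ifs with h1 h2 h3
    · rcases hs0 v with h | h
      · exact Or.inl h
      · exact Or.inr (Or.inl h)
    · exact Or.inl rfl
    · exact Or.inr (Or.inl rfl)
    · right; right
      rw [abs_le]
      constructor <;> linarith
  have hxne : ∀ v, v ∉ H → x v ≠ 0 → q1 v ≠ 0 := by
    intro v hv h h'
    apply h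
    simp only [hx]
    rw [if_neg hv, h', if_neg (by linarith), if_neg (by linarith), mul_zero]
  have hx1' : ∀ v, v ∉ H → s1 v = 1 → x v = 1 := by
    intro v hv h
    have h1 : q1 v = 1 / 2 := by rw [hq1 v (by rw [h]; norm_num), h]
    simp only [hx]
    rw [if_neg hv, h1, if_pos (by linarith)]
  have hx2' : ∀ v, v ∉ H → s1 v = -1 → x v = -1 := by
    intro v hv h
    have h1 : q1 v = -1 / 2 := by rw [hq1 v (by rw [h]; norm_num), h]
    simp only [hx]
    rw [if_neg hv, h1, if_neg (by linarith), if_pos (by linarith)]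
  have hfield : ∀ v, |J * ∑ w ∈ nb R v, x w - 2 * (J * ∑ w ∈ nb R v, q1 w)| ≤
      4 * c * dg R v := by
    intro v
    have e1 : J * ∑ w ∈ nb R v, x w - 2 * (J * ∑ w ∈ nb R v, q1 w) =
        J * ∑ w ∈ nb R v, (x w - 2 * q1 w) := by
      rw [Finset.sum_sub_distrib, ← Finset.mul_sum]
      ring
    rw [e1, abs_mul, hJ2, one_mul]
    refine (Finset.abs_sum_le_sum_abs _ _).trans ?_
    refine (Finset.sum_le_card_nsmul _ _ _ (fun w _ => hxd w)).trans (le_of_eq ?_)
    unfold dg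
    rw [nsmul_eq_mul]
    ring
  set t0 : V → ℝ := fun v => (dg R v : ℝ) - 2 * k - 4 * c * dg R v with ht0
  set t1 : V → ℝ := fun v => t0 v + 2 * (c * m) with ht1
  have hg1 : ∀ v, v ∉ H → t0 v < J * ∑ w ∈ nb R v, x w → x v = 1 := by
    intro v hv h
    have h1 := (abs_le.1 (hfield v)).2
    simp only [ht0] at h
    apply hx1' v hv
    rcases hs1 v with h' | h' | h'
    · exact h'
    · exfalso
      have h2 := hx1 v hv (by rw [h']; norm_num)
      rw [h'] at h2
      linarith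
    · exfalso
      have h2 := (abs_le.1 (hx0 v hv h')).2
      linarith
  have hg2 : ∀ v, v ∉ H → J * ∑ w ∈ nb R v, x w < -t0 v → x v = -1 := by
    intro v hv h
    have h1 := (abs_le.1 (hfield v)).1
    simp only [ht0] at h
    apply hx2' v hv
    rcases hs1 v with h' | h' | h'
    · exfalso
      have h2 := hx1 v hv (by rw [h']; norm_num)
      rw [h'] at h2
      linarith
    · exact h'
    · exfalso
      have h2 := (abs_le.1 (hx0 v hv h')).1
      linarith
  have hdm : ∀ v : V, (m : ℝ) ≤ dg R v := fun v => by exact_mod_cast hdeg v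
  have ht1pos : ∀ v, 0 ≤ t1 v := by
    intro v
    have h1 := hdm v
    simp only [ht1, ht0]
    have h2 : (1 - 4 * c) * (m : ℝ) ≤ (1 - 4 * c) * dg R v :=
      mul_le_mul_of_nonneg_left h1 (by linarith)
    nlinarith
  have hQnH : ∀ v, v ∈ Q → v ∉ H := fun v h1 h2 => Finset.disjoint_left.1 hQH h1 h2
  have hXW : 32 * c ^ 2 * ((univ.filter (fun v => v ∉ H ∧ x v ≠ 0)).card : ℝ) ≤ W := by
    have e1 : Set.ncard {v : V | v ∉ H ∧ q1 v ≠ 0} =
        (univ.filter (fun v => v ∉ H ∧ q1 v ≠ 0)).card := by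
      rw [← Set.ncard_coe_finset]
      congr 1
      ext v
      simp
    rw [e1] at hn1
    have e2 : ((univ.filter (fun v => v ∉ H ∧ x v ≠ 0)).card : ℝ) ≤
        ((univ.filter (fun v => v ∉ H ∧ q1 v ≠ 0)).card : ℝ) := by
      have : (univ.filter (fun v => v ∉ H ∧ x v ≠ 0)).card ≤
          (univ.filter (fun v => v ∉ H ∧ q1 v ≠ 0)).card := by
        apply Finset.card_le_card
        intro v hv
        rw [Finset.mem_filter] at hv ⊢
        exact ⟨hv.1, hv.2.1, hxne v hv.2.1 hv.2.2⟩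
      exact_mod_cast this
    have e3 : 32 * c ^ 2 * ((univ.filter (fun v => v ∉ H ∧ x v ≠ 0)).card : ℝ) ≤
        32 * c ^ 2 * ((univ.filter (fun v => v ∉ H ∧ q1 v ≠ 0)).card : ℝ) :=
      mul_le_mul_of_nonneg_left e2 (by positivity)
    nlinarith
  have hX0 : W = 0 → univ.filter (fun v => v ∉ H ∧ x v ≠ 0) = ∅ := by
    intro hW0
    rw [hW0, Nat.cast_zero] at hXW
    have h1 : 0 < 32 * c ^ 2 := by positivity
    have h2 : ((univ.filter (fun v => v ∉ H ∧ x v ≠ 0)).card : ℝ) ≤ 0 := by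
      by_contra hcon
      rw [not_le] at hcon
      have := mul_pos h1 hcon
      linarith
    have h3 : (univ.filter (fun v => v ∉ H ∧ x v ≠ 0)).card ≤ 0 := by exact_mod_cast h2
    exact Finset.card_eq_zero.1 (Nat.le_zero.1 h3)
  have hXW' : ((univ.filter (fun v => v ∉ H ∧ x v ≠ 0)).card : ℝ) ≤ W / (32 * c ^ 2) := by
    rw [le_div_iff₀ (by positivity)]
    linarith
  have hcase' : univ.filter (fun v => v ∉ H ∧ x v ≠ 0) = ∅ ∨
      ((∀ Z ⊆ Q, Z.card ≤ N0 * (F + 1) → ∃ X : Finset V, Z ⊆ X ∧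
        X.card ≤ b ∧ ∀ v ∈ Q, v ∉ X → ((nb R v ∩ X).card : ℝ) < c * m) ∧
      2 * m * (b + (univ.filter (fun v => v ∉ H ∧ x v ≠ 0)).card) < (F + 1) * D) := by
    rcases hcase with hW0 | ⟨hull, hWF⟩
    · exact Or.inl (hX0 hW0)
    · right
      refine ⟨hull, ?_⟩
      have h1 : 2 * (m : ℝ) * (b + ((univ.filter (fun v => v ∉ H ∧ x v ≠ 0)).card : ℝ)) ≤
          2 * (m : ℝ) * (b + W / (32 * c ^ 2)) :=
        mul_le_mul_of_nonneg_left (by linarith) (by positivity)
      have h2 : 2 * (m : ℝ) * (b + ((univ.filter (fun v => v ∉ H ∧ x v ≠ 0)).card : ℝ)) <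
          (F + 1) * D := lt_of_le_of_lt h1 hWF
      exact_mod_cast h2
  have hD0 : 0 < D := by omega
  obtain ⟨y, Ch, Fl, hChQ, hFlS, hoff, hch, hfl, hy1, hy2, hserve, hCh, hFl⟩ := cascadeF R hsymm
    hirr J hJ H S Q hSH hQH (fun u hu v huv => hHm u (hSH hu) v huv) x hx01
    (fun u hu => by rw [hxH u (hSH hu)]; exact hs0 u) t0 t1 (c * m) (by linarith)
    (fun v _ => ht1pos v) (fun v _ => le_of_eq rfl)
    (fun v hv => hg1 v (hQnH v hv)) (fun v hv => hg2 v (hQnH v hv)) m D N0 F b hD0 hDS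
    (fun v => (Finset.card_le_card (Finset.inter_subset_inter_left hSH)).trans (hBc v)) hN0D hcase'
  have hFlH : ∀ v, v ∈ Fl → v ∈ H := fun v hv => hSH (hFlS hv)
  have hyH : ∀ v ∈ H, y v = 1 ∨ y v = -1 := by
    intro v hv
    have h1 : v ∉ Ch := fun h => hQnH v (hChQ h) hv
    by_cases h2 : v ∈ Fl
    · rcases hfl v h2 with h3 | h3 <;> rw [h3, hxH v hv] <;> rcases hs0 v with h4 | h4 <;>
        rw [h4] <;> norm_num
    · rw [hoff v h1 h2, hxH v hv]
      exact hs0 v
  have hyle : ∀ v, |y v| ≤ 1 := by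
    intro v
    by_cases h1 : v ∈ Ch
    · rcases hch v h1 with h2 | h2 <;> rw [h2] <;> norm_num
    · by_cases h2 : v ∈ Fl
      · rcases hfl v h2 with h3 | h3
        · rw [h3]; exact hx01 v
        · rw [h3, abs_neg]; exact hx01 v
      · rw [hoff v h1 h2]; exact hx01 v
  have hycase : ∀ v, y v = 1 ∨ y v = -1 ∨ |y v| ≤ 1 - 4 * c := by
    intro v
    by_cases h1 : v ∈ Ch
    · rcases hch v h1 with h2 | h2
      · exact Or.inl h2
      · exact Or.inr (Or.inl h2)
    · by_cases h2 : v ∈ Fl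
      · rcases hyH v (hFlH v h2) with h3 | h3
        · exact Or.inl h3
        · exact Or.inr (Or.inl h3)
      · rw [hoff v h1 h2]; exact hxcase v
  -- the fields of all low vertices
  have hlow : ∀ v, v ∉ H → (t1 v < J * ∑ w ∈ nb R v, y w → y v = 1) ∧
      (J * ∑ w ∈ nb R v, y w < -t1 v → y v = -1) := by
    intro v hv
    by_cases hvQ : v ∈ Q
    · exact ⟨hy1 v hvQ, hy2 v hvQ⟩
    · have hvCh : v ∉ Ch := fun h => hvQ (hChQ h)
      have hvFl : v ∉ Fl := fun h => hv (hFlH v h)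
      have hd : |J * ∑ w ∈ nb R v, y w - J * ∑ w ∈ nb R v, x w| ≤ 2 * (c * m) := by
        rw [← mul_sub, ← Finset.sum_sub_distrib, abs_mul, hJ2, one_mul]
        refine (Finset.abs_sum_le_sum_abs _ _).trans ?_
        have e1 : ∀ w ∈ nb R v, |y w - x w| ≤ if w ∈ Q ∪ S then (2 : ℝ) else 0 := by
          intro w _
          split_ifs with h1
          · have h2 := abs_le.1 (hyle w)
            have h3 := abs_le.1 (hx01 w)
            rw [abs_le]
            constructor <;> linarith [h2.1, h2.2, h3.1, h3.2]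
          · rw [Finset.mem_union, not_or] at h1
            rw [hoff w (fun h => h1.1 (hChQ h)) (fun h => h1.2 (hFlS h)), sub_self, abs_zero]
        refine (Finset.sum_le_sum e1).trans ?_
        rw [Finset.sum_ite_mem, Finset.sum_const, nsmul_eq_mul]
        have := hpoor v hvQ hv
        linarith
      have hd' := abs_le.1 hd
      rw [hoff v hvCh hvFl]
      constructor
      · intro h
        apply hg1 v hv
        simp only [ht1] at h
        linarith [hd'.2]
      · intro h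
        apply hg2 v hv
        simp only [ht1] at h
        linarith [hd'.1]
  have hthr : ∀ v, t1 v ≤ 2 * ((dg R v : ℝ) / 2 - k - c * dg R v) := by
    intro v
    have h1 : c * m ≤ c * dg R v := mul_le_mul_of_nonneg_left (hdm v) hc.le
    simp only [ht1, ht0]
    linarith
  set s : V → ℝ := fun v => if y v = 1 then 1 else if y v = -1 then -1 else 0 with hs
  have hsy : ∀ v, (y v = 1 ∧ s v = 1) ∨ (y v = -1 ∧ s v = -1) ∨
      (y v ≠ 1 ∧ y v ≠ -1 ∧ s v = 0) := by
    intro v
    simp only [hs]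
    by_cases h1 : y v = 1
    · left; exact ⟨h1, by rw [if_pos h1]⟩
    · by_cases h2 : y v = -1
      · right; left; exact ⟨h2, by rw [if_neg h1, if_pos h2]⟩
      · right; right; exact ⟨h1, h2, by rw [if_neg h1, if_neg h2]⟩
  have hsyH : ∀ v ∈ H, s v = y v := by
    intro v hv
    rcases hsy v with h | h | h
    · rw [h.1, h.2]
    · rw [h.1, h.2]
    · rcases hyH v hv with h' | h'
      · exact absurd h' h.1
      · exact absurd h' h.2.1
  have hhalf : ∀ v, J * ∑ w ∈ nb R v, y w / 2 = (J * ∑ w ∈ nb R v, y w) / 2 := by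
    intro v
    rw [← Finset.sum_div]
    ring
  refine ⟨s, fun v => y v / 2, Ch.card + (univ.filter (fun v => v ∉ H ∧ x v ≠ 0)).card,
    ?_, ?_, ?_, ?_, ?_, ?_, ?_, ?_, ?_, ?_, ?_⟩
  · intro v
    rcases hsy v with h | h | h
    · exact Or.inl h.2
    · exact Or.inr (Or.inl h.2)
    · exact Or.inr (Or.inr h.2.2)
  · intro v hv
    rw [hsyH v hv]
    rcases hyH v hv with h' | h' <;> rw [h'] <;> norm_num
  · intro v hv
    rcases hsy v with h | h | h
    · simp only [h.1, h.2]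
    · simp only [h.1, h.2]
    · exact absurd h.2.2 hv
  · intro v _
    simp only []
    rw [abs_div, abs_two]
    have := hyle v
    linarith
  · intro v hv hsv
    rw [hhalf]
    have hne : y v ≠ 1 ∧ y v ≠ -1 := by
      rcases hsy v with h | h | h
      · rw [h.2] at hsv; norm_num at hsv
      · rw [h.2] at hsv; norm_num at hsv
      · exact ⟨h.1, h.2.1⟩
    have h1 := not_lt.1 (mt (hlow v hv).1 hne.1)
    have h2 := not_lt.1 (mt (hlow v hv).2 hne.2)
    have h3 := hthr v
    rw [abs_le]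
    constructor <;> linarith
  · intro v hv hsv
    simp only [hhalf]
    have h3 := hthr v
    rcases hsy v with h | h | h
    · have h1 : ¬ (J * ∑ w ∈ nb R v, y w < -t1 v) := by
        intro h'
        have := (hlow v hv).2 h'
        rw [h.1] at this
        norm_num at this
      rw [not_lt] at h1
      rw [h.2]
      linarith
    · have h1 : ¬ (t1 v < J * ∑ w ∈ nb R v, y w) := by
        intro h'
        have := (hlow v hv).1 h'
        rw [h.1] at this
        norm_num at this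
      rw [not_lt] at h1
      rw [h.2]
      linarith
    · exact absurd h.2.2 hsv
  · intro u hu
    obtain ⟨Y, hY1, hY2⟩ := Finset.exists_subset_card_eq (hserve u hu)
    refine ⟨Y, hY1.trans (Finset.filter_subset _ _), hY2, fun w hw => ?_⟩
    have h1 := (Finset.mem_filter.1 (hY1 hw)).2
    rw [hsyH u (hSH hu)]
    have h2 : 1 + 2 * (J * y u * (y w / 2)) = 1 + (J * y u) * y w := by ring
    rw [h2]
    have h3 : J * y u = 1 ∨ J * y u = -1 := by
      rcases hJ with rfl | rfl <;> rcases hyH u (hSH hu) with h4 | h4 <;> rw [h4] <;> norm_num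
    have h5 := hycase w
    rcases h3 with h3 | h3
    · rw [h3] at h1 ⊢
      rcases h5 with h5 | h5 | h5
      · rw [h5]; linarith
      · exact absurd h5 h1
      · have := (abs_le.1 h5).1
        linarith
    · rw [h3] at h1 ⊢
      rw [neg_neg] at h1
      rcases h5 with h5 | h5 | h5
      · exact absurd h5 h1
      · rw [h5]; linarith
      · have := (abs_le.1 h5).2
        linarith
  · -- the sum over the hubs
    have hFlf : (Fl.card : ℝ) ≤
        ((Ch.card + (univ.filter (fun v => v ∉ H ∧ x v ≠ 0)).card : ℕ) : ℝ) := by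
      have h1 : 2 * m * (Ch.card + (univ.filter (fun v => v ∉ H ∧ x v ≠ 0)).card) ≤
          D * (Ch.card + (univ.filter (fun v => v ∉ H ∧ x v ≠ 0)).card) :=
        Nat.mul_le_mul_right _ hmD
      exact_mod_cast Nat.le_of_mul_le_mul_left (hFl.trans h1) hD0
    have e1 : ∑ h ∈ H, s h = ∑ h ∈ H, s0 h + ∑ h ∈ H, (y h - x h) := by
      rw [← Finset.sum_add_distrib]
      refine Finset.sum_congr rfl fun h hh => ?_
      rw [hsyH h hh, hxH h hh]
      ring
    have e2 : |∑ h ∈ H, (y h - x h)| ≤ 2 * (Fl.card : ℝ) := by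
      refine (Finset.abs_sum_le_sum_abs _ _).trans ?_
      have e3 : ∀ h ∈ H, |y h - x h| ≤ if h ∈ Fl then (2 : ℝ) else 0 := by
        intro h hh
        split_ifs with h1
        · have h2 := abs_le.1 (hyle h)
          have h3 := abs_le.1 (hx01 h)
          rw [abs_le]
          constructor <;> linarith [h2.1, h2.2, h3.1, h3.2]
        · rw [hoff h (fun h' => hQnH h (hChQ h') hh) h1, sub_self, abs_zero]
      refine (Finset.sum_le_sum e3).trans ?_
      rw [Finset.sum_ite_mem, Finset.sum_const, nsmul_eq_mul]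
      have h4 : ((H ∩ Fl).card : ℝ) ≤ Fl.card := by
        exact_mod_cast Finset.card_le_card Finset.inter_subset_right
      linarith
    rw [e1]
    refine (abs_add_le _ _).trans ?_
    linarith
  · -- the size of the support
    have h1 : univ.filter (fun v => v ∉ H ∧ y v / 2 ≠ 0) ⊆
        univ.filter (fun v => v ∉ H ∧ x v ≠ 0) ∪ Ch := by
      intro v hv
      rw [Finset.mem_filter] at hv
      by_cases h2 : v ∈ Ch
      · exact Finset.mem_union_right _ h2
      · refine Finset.mem_union_left _ (Finset.mem_filter.2 ⟨Finset.mem_univ _, hv.2.1, ?_⟩)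
        intro h3
        apply hv.2.2
        rw [hoff v h2 (fun h => hv.2.1 (hFlH v h)), h3, zero_div]
    have h2 := (Finset.card_le_card h1).trans (Finset.card_union_le _ _)
    have h5 : (univ.filter (fun v => v ∉ H ∧ (fun v => y v / 2) v ≠ 0)).card =
      (univ.filter (fun v => v ∉ H ∧ y v / 2 ≠ 0)).card := rfl
    omega
  · intro hW0
    rw [hCh.2 (hX0 hW0), hX0 hW0, Finset.card_empty]
  · push_cast
    have h1 : (Ch.card : ℝ) ≤ b := by exact_mod_cast hCh.1
    linarith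

end Pool.Agent.helper77.Hull
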